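import Pool.Agent.Helper66.SC.Defs
import Pool.Agent.Helper22.SC.Rec2

/-! # Basic facts on names and their values -/

namespace Pool.Agent.Helper27.SC

universe u

open ZFSet
open Pool.Agent.Helper66.SC Pool.Agent.Helper22.SC

variable {C : Cls.{u}}

/-! ### Canonical names -/

theorem chk_eq (x : ZFSet.{u}) : chk x = img x (fun y => ZFSet.pair (chk y) ∅) := by
  ext z
  rw [mem_chk, mem_img]
  constructor
  · rintro ⟨y, hy, rfl⟩; exact ⟨y, hy, rfl⟩
  · rintro ⟨y, hy, rfl⟩; exact ⟨y, hy, rfl⟩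

theorem u_chk0 [ZCls C] : U C (fun _ _ (x : ZFSet.{u}) => chk x) := by
  refine U.memrec0 (F := fun _ _ _ g => img g (fun z => ZFSet.pair (psnd z) ∅))
    (by apply_rules (transparency := .reducible) (maxDepth := 400) using is_poly) ?_
  intro N A _ x _
  rw [img_gr (h := fun t => ZFSet.pair t ∅)]
  exact chk_eq x

theorem u_chk [ZCls C] {α : Type (u + 1)} [Ctx.{u} α]
    {f : Set ZFSet.{u} → Set ZFSet.{u} → α → ZFSet.{u}} (hf : U C f) :
    U C (fun N A a => chk (f N A a)) := u_chk0.comp hf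

theorem chk_memM {M A : Set ZFSet.{u}} (hM : IsZF M A) {x : ZFSet.{u}} (hx : x ∈ M) :
    chk x ∈ M :=
  in_zfset.1 ((u_chk0 (C := fun M A => IsZF M A)).closed hM (a := x) (in_zfset.2 hx))

theorem val_chk {G : ZFSet.{u}} (hG : ∅ ∈ G) (x : ZFSet.{u}) : val G (chk x) = x := by
  induction x using ZFSet.inductionOn with
  | _ x ih =>
    ext z
    rw [mem_val]
    constructor
    · rintro ⟨σ, p, hp, h, rfl⟩
      obtain ⟨y, hy, h2⟩ := mem_chk.1 h
      obtain ⟨rfl, rfl⟩ := pair_inj.1 h2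
      rw [ih y hy]
      exact hy
    · intro hz
      exact ⟨chk z, ∅, hG, mem_chk.2 ⟨z, hz, rfl⟩, (ih z hz).symm⟩

/-! ### Values -/

theorem rank_val_le (G τ : ZFSet.{u}) : (val G τ).rank ≤ τ.rank := by
  induction hr : τ.rank using WellFoundedLT.induction generalizing τ with
  | ind r ih =>
    rw [rank_le_iff]
    intro y hy
    obtain ⟨σ, p, _, h, rfl⟩ := mem_val.1 hy
    have h1 := rank_lt_of_pair_mem h
    rw [hr] at h1
    exact lt_of_le_of_lt (ih σ.rank h1 σ rfl) h1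

theorem rank_lt_of_mem_ndom {G τ σ : ZFSet.{u}} (h : σ ∈ ndom G τ) : σ.rank < τ.rank := by
  obtain ⟨p, _, h⟩ := mem_ndom.1 h
  exact rank_lt_of_pair_mem h

theorem val_eq (G τ : ZFSet.{u}) : val G τ = img (ndom G τ) (val G) := by
  ext z
  rw [mem_val, mem_img]
  constructor
  · rintro ⟨σ, p, hp, h, rfl⟩
    exact ⟨σ, mem_ndom.2 ⟨p, hp, h⟩, rfl⟩
  · rintro ⟨σ, hσ, rfl⟩
    obtain ⟨p, hp, h⟩ := mem_ndom.1 hσ
    exact ⟨σ, p, hp, h, rfl⟩

theorem u_ndom0 [ZCls C] : U C (fun _ _ (p : ZFSet.{u} × ZFSet.{u}) => ndom p.1 p.2) := by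
  unfold ndom
  apply_rules (transparency := .reducible) (maxDepth := 400) using is_poly

theorem u_val0 [ZCls C] : U C (fun _ _ (p : ZFSet.{u} × ZFSet.{u}) => val p.1 p.2) := by
  refine U.wfrec (F := fun _ _ p => img p.2 (fun z => psnd z))
    (P := fun _ _ p => ndom p.1 p.2) (G := fun _ _ a x => val a x) ?_ u_ndom0 ?_ ?_
  · apply_rules (transparency := .reducible) (maxDepth := 400) using is_poly
  · intro N A hN a ha
    refine acc_of_rank (P := fun x => ndom a x) ?_ (fun x _ y hy => rank_lt_of_mem_ndom hy)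
    intro x hx y hy
    obtain ⟨p, _, h⟩ := mem_ndom.1 hy
    exact ((ZCls.isZF hN).of_pair ((ZCls.isZF hN).trans _ hx _ h)).1
  · intro N A hN a ha x hx
    show val a x = img (gr (ndom a x) (val a)) (fun z => psnd z)
    rw [img_gr (h := fun t => t)]
    exact val_eq a x

theorem u_val [ZCls C] {α : Type (u + 1)} [Ctx.{u} α]
    {f g : Set ZFSet.{u} → Set ZFSet.{u} → α → ZFSet.{u}} (hf : U C f) (hg : U C g) :
    U C (fun N A a => val (f N A a) (g N A a)) := u_val0.comp (hf.prodMk hg)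

theorem val_memM {K B : Set ZFSet.{u}} (hK : IsZF K B) {G τ : ZFSet.{u}} (hG : G ∈ K)
    (hτ : τ ∈ K) : val G τ ∈ K :=
  in_zfset.1 ((u_val0 (C := fun M A => IsZF M A)).closed hK (a := (G, τ)) (by simp [hG, hτ]))

theorem st_FB1e : ST_FB1e.{u} := by
  rintro M K B G hK hMK hG x ⟨τ, hτ, rfl⟩
  exact val_memM hK hG (hMK hτ)

theorem chk_mem_ext {M A : Set ZFSet.{u}} (hM : IsZF M A) {G x : ZFSet.{u}} (hG : ∅ ∈ G)
    (hx : x ∈ M) : x ∈ Ext M G := ⟨chk x, chk_memM hM hx, (val_chk hG x).symm⟩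

/-- the canonical name of the generic filter -/
noncomputable def gname (P : ZFSet.{u}) : ZFSet.{u} := img P (fun p => ZFSet.pair (chk p) p)

theorem gname_memM {M A : Set ZFSet.{u}} (hM : IsZF M A) {P : ZFSet.{u}} (hP : P ∈ M) :
    gname P ∈ M := by
  have : U (fun M A => IsZF M A) (fun _ _ (x : ZFSet.{u}) => gname x) := by
    unfold gname
    refine U.img (by apply_rules (transparency := .reducible) (maxDepth := 400) using is_poly) ?_
    refine U.pair (u_chk ?_) ?_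
    all_goals apply_rules (transparency := .reducible) (maxDepth := 400) using is_poly
  exact in_zfset.1 (this.closed hM (a := P) (in_zfset.2 hP))

theorem val_gname {P G : ZFSet.{u}} (hG : ∅ ∈ G) (hGP : G ⊆ P) : val G (gname P) = G := by
  ext z
  rw [mem_val]
  constructor
  · rintro ⟨σ, p, hp, h, rfl⟩
    obtain ⟨q, hq, h2⟩ := mem_img.1 h
    obtain ⟨rfl, rfl⟩ := pair_inj.1 h2
    rw [val_chk hG]
    exact hp
  · intro hz
    exact ⟨chk z, z, hz, mem_img.2 ⟨z, hGP hz, rfl⟩, (val_chk hG z).symm⟩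

theorem st_FB1 : ST_FB1.{u} := by
  intro M A P G hM hP hG
  refine ⟨fun x hx => chk_mem_ext hM hG.top hx, ⟨gname P, gname_memM hM hP,
    (val_gname hG.top hG.sub).symm⟩, ?_, ?_, fun x hx => ⟨chk_memM hM hx, val_chk hG.top x⟩⟩
  · rintro x ⟨τ, hτ, rfl⟩ y hy
    obtain ⟨σ, p, _, h, rfl⟩ := mem_val.1 hy
    exact ⟨σ, (hM.of_pair (hM.trans _ hτ _ h)).1, rfl⟩
  · intro o
    constructor
    · rintro ⟨τ, hτ, h⟩
      have h1 : o ≤ τ.rank := by
        have h2 := rank_val_le G τ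
        rw [← h] at h2
        simpa using h2
      have h3 : (insert (rk τ) (rk τ) : ZFSet.{u}) ∈ M := hM.succ_mem (hM.rk_mem hτ)
      refine hM.trans _ h3 _ ?_
      rw [mem_insert_iff]
      rcases h1.eq_or_lt with h4 | h4
      · left; rw [h4]; rfl
      · right; exact Ordinal.toZFSet_mem_toZFSet_iff.2 h4
    · intro h
      exact chk_mem_ext hM hG.top h

end Pool.Agent.Helper27.SC
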